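import Pool.Agent.SSF.Stmts

/-!
# Squad SSF, row UNM: uniqueness of the term, and the distances
-/

set_option autoImplicit false

open Set Topology

noncomputable section

namespace Pool.Agent.SSF.H27

open Pool.Agent.LSG Pool.Agent.LPR Pool.Agent.SSF

theorem scale_le (m m' : ℕ) (r : ℝ) (h1 : (1 / 2 : ℝ) ^ (m + 4) < r)
    (h2 : r < 16 * (1 / 2 : ℝ) ^ m') : m' ≤ m + 7 := by
  by_contra hcon
  have h3 : m + 8 ≤ m' := by omega
  have h4 : (1 / 2 : ℝ) ^ m' ≤ (1 / 2 : ℝ) ^ (m + 8) :=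
    pow_le_pow_of_le_one (by norm_num) (by norm_num) h3
  have h5 : (1 / 2 : ℝ) ^ (m + 8) = (1 / 2 : ℝ) ^ (m + 4) / 16 := by
    rw [show m + 8 = (m + 4) + 4 by ring, pow_add]
    norm_num
    ring
  linarith

theorem unm : UnmStmt := by
  intro S M _ _ O ρ χ ψ K c p η w θ hP hQ hC
  refine ⟨?_, ?_⟩
  · intro x m k m' k' h h'
    have h1 := hC.supp m _ (left_ne_zero_of_mul h)
    have h2 := hC.supp m' _ (left_ne_zero_of_mul h')
    exact hQ.sep m k m' k' x.2 (scale_le m' m _ h2.1 h1.2) (scale_le m m' _ h1.1 h2.2)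
      (right_ne_zero_of_mul h) (right_ne_zero_of_mul h')
  · intro s t u m k hw hψ
    obtain ⟨_, h1, h2, h3⟩ := hP.supp m k (s, u) hψ
    obtain ⟨_, h4⟩ := hQ.supp m k t hw
    have h3' : dist u (c m k) < (1 / 2 : ℝ) ^ (m + 5) := h3
    have h5 : dist t u < (1 / 2 : ℝ) ^ (m + 4) := by
      have h6 := dist_triangle_right t u (c m k)
      have h7 : (1 / 2 : ℝ) ^ (m + 5) + (1 / 2 : ℝ) ^ (m + 5) = (1 / 2 : ℝ) ^ (m + 4) := by
        rw [show m + 5 = (m + 4) + 1 by ring, pow_succ]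
        ring
      linarith
    refine ⟨h5, hC.one m _ ?_ ?_⟩
    all_goals
      have h6 := abs_le.1 (hP.lip s t u)
      have h8 : (1 / 2 : ℝ) ^ (m + 4) = (1 / 2 : ℝ) ^ m / 16 := by
        rw [pow_add]; norm_num; ring
      have h9 : (1 / 2 : ℝ) ^ (m + 2) = (1 / 2 : ℝ) ^ m / 4 := by
        rw [pow_add]; norm_num; ring
      have h10 : (1 / 2 : ℝ) ^ (m + 3) = (1 / 2 : ℝ) ^ m / 8 := by
        rw [pow_add]; norm_num; ring
      have h11 : 0 < (1 / 2 : ℝ) ^ m := by positivity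
      rw [h8] at h5
      rw [h9] at h1
      try rw [h10]
      linarith [h6.1, h6.2]

end Pool.Agent.SSF.H27
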