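import Pool.Agent.SSF.StmtsC

/-!
# Squad SSF, row HLS (MP_005a41_gt): local products with a self-similar compact factor
-/

set_option autoImplicit false

open Set Topology

namespace Pool.Agent.SSF.H27

open Pool.Agent.LSG Pool.Agent.LPR Pool.Agent.SSF

theorem hls (hHgl : HglStmt) (hRlm : RlmStmt) (hLcm : LcmStmt) : HlsStmt := by
  intro X _ _ hX
  apply hHgl X
  intro x
  obtain ⟨N, hN, S, M, tS, tM, hMc, hMm, hMn, hMs, ⟨e⟩⟩ := hX x
  obtain ⟨U, hU, hUc, hUN⟩ := exists_mem_nhds_isClosed_subset hN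
  refine ⟨interior U, isOpen_interior, mem_interior_iff_mem_nhds.2 hU, fun O' hO' hop => ?_⟩
  obtain ⟨u₀⟩ : Nonempty M := hMn.to_nonempty
  have hS : TopologicalSpace.MetrizableSpace S :=
    (e.symm.isEmbedding.comp (isEmbedding_prodMkLeft u₀)).metrizableSpace
  have hcl : closure O' ⊆ N :=
    (closure_minimal (hO'.trans interior_subset) hUc).trans hUN
  obtain ⟨O₂, hO₂, ⟨φ⟩, ⟨ψ⟩⟩ := hLcm X S M N e O' hop hcl
  have hst : Stb O₂ := by
    let _ : MetricSpace M := TopologicalSpace.metrizableSpaceMetric M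
    exact hRlm S M hMs O₂ hO₂
  obtain ⟨i, p, hip⟩ := hst
  refine ⟨(φ.symm : ↥(Fo O₂) →L[ℝ] ↥(Fo O')).comp (i.comp (ψ : ↥(Sg O') →L[ℝ] ↥(Sg O₂))),
    (ψ.symm : ↥(Sg O₂) →L[ℝ] ↥(Sg O')).comp (p.comp (φ : ↥(Fo O') →L[ℝ] ↥(Fo O₂))), fun f => ?_⟩
  show ψ.symm (p (φ (φ.symm (i (ψ f))))) = f
  rw [ContinuousLinearEquiv.apply_symm_apply, hip, ContinuousLinearEquiv.symm_apply_apply]

end Pool.Agent.SSF.H27
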