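import Pool.Agent.SSF.Stmts

/-!
# Squad SSF, row HAM: partition in the scale, and two cutoffs
-/

set_option autoImplicit false

open Set Topology

noncomputable section

namespace Pool.Agent.SSF.H27

open Pool.Agent.LSG Pool.Agent.LPR Pool.Agent.SSF

theorem trap_one (A B : ℝ) (hA : 1 ≤ A) (hB : 1 ≤ B) : max 0 (min 1 (min A B)) = 1 := by
  rw [min_eq_left (le_min hA hB)]
  norm_num

theorem trap_ne (A B : ℝ) (h : max 0 (min 1 (min A B)) ≠ 0) : 0 < A ∧ 0 < B := by
  have h1 : 0 < min A B := by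
    by_contra hcon
    apply h
    have h2 : min 1 (min A B) ≤ 0 := le_trans (min_le_right _ _) (not_lt.1 hcon)
    exact max_eq_left h2
  exact lt_min_iff.1 h1

theorem trap_bd (A B : ℝ) : 0 ≤ max 0 (min 1 (min A B)) ∧ max 0 (min 1 (min A B)) ≤ 1 :=
  ⟨le_max_left _ _, max_le zero_le_one (min_le_left _ _)⟩

theorem half_mul (k : ℕ) : (1 / 2 : ℝ) ^ k * 2 ^ k = 1 := by
  rw [← mul_pow]
  norm_num

theorem ham (hH : HatStmt) : HamStmt := by
  obtain ⟨h₀, h1, h2, h3⟩ := hH
  refine ⟨fun m => (h₀ m) ^ 2,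
    fun m => ⟨fun r => max 0 (min 1 (min (r * 2 ^ (m + 2) - 1) ((4 - r * 2 ^ m) / 2))),
      by fun_prop⟩,
    fun m => ⟨fun r => max 0 (min 1 (min (r * 2 ^ (m + 4) - 1) ((16 - r * 2 ^ m) / 8))),
      by fun_prop⟩, ?_, fun m r => trap_bd _ _, fun m r => trap_bd _ _, ?_, ?_, ?_, ?_, ?_⟩
  · intro m r
    rw [ContinuousMap.pow_apply]
    positivity
  · intro m r h
    rw [ContinuousMap.pow_apply] at h
    have h4 : h₀ m r ≠ 0 := fun h5 => h (by rw [h5]; norm_num)
    obtain ⟨h5, h6⟩ := h2 m r h4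
    have h7 := half_mul m
    have h8 : (0 : ℝ) < 2 ^ m := by positivity
    refine trap_one _ _ ?_ ?_
    · have h9 : (1 / 2 : ℝ) ^ (m + 1) * 2 ^ (m + 2) = 2 := by
        rw [pow_succ, show (2 : ℝ) ^ (m + 2) = 2 ^ m * 4 by rw [pow_add]; norm_num]
        linear_combination 2 * h7
      have h10 := mul_lt_mul_of_pos_right h5 (show (0 : ℝ) < 2 ^ (m + 2) by positivity)
      linarith
    · have h10 := mul_lt_mul_of_pos_right h6 h8
      have h11 : 2 * (1 / 2 : ℝ) ^ m * 2 ^ m = 2 := by linear_combination 2 * h7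
      linarith
  · intro m r h
    obtain ⟨h4, h5⟩ := trap_ne _ _ h
    have h7 := half_mul m
    have h7' := half_mul (m + 2)
    have h8 : (0 : ℝ) < 2 ^ m := by positivity
    have h8' : (0 : ℝ) < 2 ^ (m + 2) := by positivity
    constructor
    · refine lt_of_mul_lt_mul_right ?_ h8'.le
      linarith
    · refine lt_of_mul_lt_mul_right ?_ h8.le
      have h11 : 4 * (1 / 2 : ℝ) ^ m * 2 ^ m = 4 := by linear_combination 4 * h7
      linarith
  · intro m r h h'
    have h7 := half_mul m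
    have h8 : (0 : ℝ) < 2 ^ m := by positivity
    refine trap_one _ _ ?_ ?_
    · have h9 : (1 / 2 : ℝ) ^ (m + 3) * 2 ^ (m + 4) = 2 := by
        rw [pow_add, show (2 : ℝ) ^ (m + 4) = 2 ^ m * 16 by rw [pow_add]; norm_num]
        linear_combination 2 * h7
      have h10 := mul_le_mul_of_nonneg_right h (show (0 : ℝ) ≤ 2 ^ (m + 4) by positivity)
      linarith
    · have h10 := mul_le_mul_of_nonneg_right h' h8.le
      have h11 : 8 * (1 / 2 : ℝ) ^ m * 2 ^ m = 8 := by linear_combination 8 * h7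
      linarith
  · intro m r h
    obtain ⟨h4, h5⟩ := trap_ne _ _ h
    have h7 := half_mul m
    have h7' := half_mul (m + 4)
    have h8 : (0 : ℝ) < 2 ^ m := by positivity
    have h8' : (0 : ℝ) < 2 ^ (m + 4) := by positivity
    constructor
    · refine lt_of_mul_lt_mul_right ?_ h8'.le
      linarith
    · refine lt_of_mul_lt_mul_right ?_ h8.le
      have h11 : 16 * (1 / 2 : ℝ) ^ m * 2 ^ m = 16 := by linear_combination 16 * h7
      linarith
  · intro r hr hr1
    obtain ⟨j, hj1, hj2⟩ := h3 r hr hr1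
    refine ⟨j, fun m hm => hj1 m ?_, ?_⟩
    · intro h5
      rw [ContinuousMap.pow_apply, h5] at hm
      norm_num at hm
    · rw [ContinuousMap.pow_apply, ContinuousMap.pow_apply]
      exact hj2

end Pool.Agent.SSF.H27
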